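import Pool.Agent.WAP.StmtsL

/-! helper60, squad WAP, row NCO -/

set_option autoImplicit false

namespace Pool.Agent.WAP.H60

open Classical Polynomial WeierstrassCurve.Affine

section basic
variable {F : Type} [Field F] [Algebra GaussianInt F] {d : F}

theorem sm_mul (a b : GaussianInt) (P : Pt d) : sm (a * b) P = sm a (sm b P) := mul_gsm _ a b P

theorem sm_radd (a b : GaussianInt) (P : Pt d) : sm (a + b) P = sm a P + sm b P := add_gsm _ a b P

theorem sm_add (a : GaussianInt) (P Q : Pt d) : sm a (P + Q) = sm a P + sm a Q := gsm_add _ a P Q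

theorem sm_one (P : Pt d) : sm 1 P = P := by
  show gsm _ 1 P = P
  simp [gsm]

theorem sm_zero (a : GaussianInt) : sm a (0 : Pt d) = 0 := by
  show gsm _ a 0 = 0
  simp [gsm]

theorem nonsing_zero (h2 : (2 : F) ≠ 0) (hd : d ≠ 0) : (W d).Nonsingular 0 0 :=
  (W_nonsingular d 0 0 h2 hd).2 (by ring)

theorem sm_lam_T (hn : (W d).Nonsingular 0 0) : sm lam (Point.some 0 0 hn : Pt d) = 0 := by
  rw [sm_def]
  have e1 : iPt (Point.some 0 0 hn : Pt d) = Point.some 0 0 hn := by
    unfold iPt
    simp only [Jf]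
    congr 1
    · exact neg_zero
    · exact mul_zero _
  rw [e1]
  have e2 : lam.re = 1 := rfl
  have e3 : lam.im = 1 := rfl
  rw [e2, e3, one_smul]
  exact Point.add_of_Y_eq rfl (by rw [W_negY, neg_zero])

end basic

theorem ex_ne (hal : HalStmt) (F : Type) [Field F] [IsAlgClosed F] [Algebra GaussianInt F] (d : F)
    (h2 : (2 : F) ≠ 0) (hd : d ≠ 0) : ∀ (N : ℕ) (a : GaussianInt),
    a.re ^ 2 + a.im ^ 2 ≤ (N : ℤ) → a ≠ 0 → ∃ Q : Pt d, sm a Q ≠ 0 := by
  intro N
  induction N with
  | zero =>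
    intro a ha hne
    exfalso
    apply hne
    have h1 := sq_nonneg a.re
    have h3 := sq_nonneg a.im
    push_cast at ha
    have h4 : a.re ^ 2 = 0 := by linarith
    have h5 : a.im ^ 2 = 0 := by linarith
    exact Zsqrtd.ext (pow_eq_zero_iff two_ne_zero |>.1 h4) (pow_eq_zero_iff two_ne_zero |>.1 h5)
  | succ N ih =>
    intro a ha hne
    rcases Int.even_or_odd (a.re + a.im) with hev | hod
    · obtain ⟨u, hu⟩ := hev
      -- a = lam * b, b = u + (u - a.re) i
      set b : GaussianInt := ⟨u, u - a.re⟩ with hb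
      have hab : a = b * lam := by
        apply Zsqrtd.ext
        · rw [Zsqrtd.re_mul]
          simp only [hb, lam]
          ring
        · rw [Zsqrtd.im_mul]
          simp only [hb, lam]
          linarith
      have hbne : b ≠ 0 := by
        intro h
        apply hne
        rw [hab, h, zero_mul]
      have hnorm : a.re ^ 2 + a.im ^ 2 = 2 * (b.re ^ 2 + b.im ^ 2) := by
        have e1 : a.im = 2 * u - a.re := by linarith
        rw [e1]
        simp only [hb]
        ring
      have hpos : 0 < b.re ^ 2 + b.im ^ 2 := by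
        by_contra hcon
        have h1 := sq_nonneg b.re
        have h3 := sq_nonneg b.im
        apply hbne
        exact Zsqrtd.ext (pow_eq_zero_iff two_ne_zero |>.1 (by linarith))
          (pow_eq_zero_iff two_ne_zero |>.1 (by linarith))
      obtain ⟨Q, hQ⟩ := ih b (by push_cast at ha; linarith) hbne
      obtain ⟨Q2, hQ2⟩ := hal F d h2 hd Q
      refine ⟨Q2, ?_⟩
      rw [hab, sm_mul, hQ2]
      exact hQ
    · obtain ⟨u, hu⟩ := hod
      set c : GaussianInt := ⟨u, u - (a.re - 1)⟩ with hc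
      have hac : a = 1 + c * lam := by
        apply Zsqrtd.ext
        · rw [Zsqrtd.re_add, Zsqrtd.re_mul]
          simp only [hc, lam, Zsqrtd.re_one]
          ring
        · rw [Zsqrtd.im_add, Zsqrtd.im_mul]
          simp only [hc, lam, Zsqrtd.im_one]
          linarith
      refine ⟨Point.some 0 0 (nonsing_zero h2 hd), ?_⟩
      rw [hac, sm_radd, sm_mul, sm_lam_T, sm_zero, add_zero, sm_one]
      exact Point.some_ne_zero _

theorem all_zero {F : Type} [Field F] [Algebra GaussianInt F] {d : F} {L : Type} [Field L]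
    [Algebra GaussianInt L] (ι : F →ₐ[GaussianInt] L) (X Y : L)
    (h : (W (ι d)).Nonsingular X Y) (hG : Gen F d L ι X Y h) (a : GaussianInt) (Q0 : Pt d)
    (Q0' : Pt (ι d)) (hbc : BcR ι Q0 Q0') (heq : sm a (Point.some X Y h : Pt (ι d)) = Q0')
    (Q : Pt d) : sm a Q = 0 := by
  have hιd : (ι d : L) = 1 ^ 2 * (ι : F →+* L) d := by
    rw [one_pow, one_mul]
    rfl
  set τ := Tr (d := d) (d' := ι d) (ι : F →+* L) 1 one_ne_zero hιd with hτ
  have hτQ : BcR ι Q (τ Q) := by
    rcases Q with _ | ⟨x, y, hq⟩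
    · left
      exact ⟨rfl, rfl⟩
    · right
      have hq2 := Trf_aux (d := d) (d' := ι d) (ι : F →+* L) 1 one_ne_zero hιd hq
      have e1 : (1 : L) ^ 2 * (ι : F →+* L) x = ι x := by
        rw [one_pow, one_mul]
        rfl
      have e2 : (1 : L) ^ 3 * (ι : F →+* L) y = ι y := by
        rw [one_pow, one_mul]
        rfl
      have hq3 := hq2
      rw [e1, e2] at hq3
      refine ⟨x, y, hq, hq3, rfl, ?_⟩
      show Point.some _ _ hq2 = _
      congr 1
  obtain ⟨σ, h', hσ, hsum⟩ := hG.emb Q (τ Q) hτQ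
  have hσd : (ι d : L) = 1 ^ 2 * (σ : L →+* L) (ι d) := by
    rw [one_pow, one_mul]
    exact (hσ d).symm
  set ρ := Tr (d := ι d) (d' := ι d) (σ : L →+* L) 1 one_ne_zero hσd with hρ
  have hρP : ρ (Point.some X Y h) = (Point.some X Y h : Pt (ι d)) + τ Q := by
    rw [hsum]
    show Point.some _ _ _ = _
    congr 1
    · rw [one_pow, one_mul]
      rfl
    · rw [one_pow, one_mul]
      rfl
  have hρ0 : ρ Q0' = Q0' := by
    rcases hbc with ⟨-, h1⟩ | ⟨x, y, h3, h4, -, h5⟩
    · rw [h1, map_zero]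
    · rw [h5]
      show Point.some _ _ _ = _
      congr 1
      · rw [one_pow, one_mul]
        exact hσ x
      · rw [one_pow, one_mul]
        exact hσ y
  have hφσ : (σ : L →+* L).comp (algebraMap GaussianInt L) = algebraMap GaussianInt L :=
    σ.comp_algebraMap
  have hφι : (ι : F →+* L).comp (algebraMap GaussianInt F) = algebraMap GaussianInt L :=
    ι.comp_algebraMap
  have k1 : ρ (sm a (Point.some X Y h : Pt (ι d))) = sm a (ρ (Point.some X Y h)) := by
    have k2 := Tr_gsm (d := ι d) (d' := ι d) (σ : L →+* L) 1 one_ne_zero hσd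
      (algebraMap GaussianInt L) a (Point.some X Y h)
    rw [hφσ] at k2
    exact k2
  rw [hρP, heq, hρ0, sm_add, heq] at k1
  have k3 : sm a (τ Q) = 0 := by
    have k4 : Q0' + 0 = Q0' + sm a (τ Q) := by
      rw [add_zero]
      exact k1
    exact (add_left_cancel k4).symm
  have k5 : τ (sm a Q) = sm a (τ Q) := by
    have k6 := Tr_gsm (d := d) (d' := ι d) (ι : F →+* L) 1 one_ne_zero hιd
      (algebraMap GaussianInt F) a Q
    rw [hφι] at k6
    exact k6
  have k7 : τ (sm a Q) = τ 0 := by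
    rw [k5, k3, map_zero]
  exact Trf_injective (ι : F →+* L) 1 one_ne_zero hιd k7

theorem nco (hal : HalStmt) : NcoStmt := by
  intro F _ _ _ d h2 hd L _ _ ι X Y h hG a ha Q Q' hbc heq
  obtain ⟨R, hR⟩ := ex_ne hal F d h2 hd (a.re ^ 2 + a.im ^ 2).toNat a (Int.self_le_toNat _) ha
  exact hR (all_zero ι X Y h hG a Q Q' hbc heq R)

end Pool.Agent.WAP.H60
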