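import Pool.Agent.WAP.StmtsM
import Pool.Agent.Helper60_WAP.NCO

/-! helper60, squad WAP, row MEI -/

set_option autoImplicit false

namespace Pool.Agent.WAP.H60

open Classical Polynomial WeierstrassCurve.Affine

theorem sm_comb {F : Type} [Field F] [Algebra GaussianInt F] {d : F}
    (a b x y z w : GaussianInt) (P Q : Pt d) :
    sm a (sm x P + sm y Q) + sm b (sm z P + sm w Q) = sm (a * x + b * z) P + sm (a * y + b * w) Q := by
  rw [sm_add, sm_add, ← sm_mul, ← sm_mul, ← sm_mul, ← sm_mul, sm_radd, sm_radd]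
  abel

theorem sm_zero_left {F : Type} [Field F] [Algebra GaussianInt F] {d : F} (P : Pt d) :
    sm 0 P = 0 := by
  show gsm _ 0 P = 0
  simp [gsm]

section ultra
variable {F : Type} [NormedField F] [Algebra GaussianInt F] {ϖ : GaussianInt}

theorem ultra_eq (hL : IsLoc F ϖ) {x y : F} (h : ‖y‖ < ‖x‖) : ‖x + y‖ = ‖x‖ := by
  apply le_antisymm
  · refine (hL.ultra x y).trans ?_
    rw [max_eq_left h.le]
  · have h1 := hL.ultra (x + y) (-y)
    rw [add_neg_cancel_right, norm_neg] at h1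
    rcases le_max_iff.1 h1 with h2 | h2
    · exact h2
    · exact absurd h2 (not_le.2 h)

theorem norm_unit (hL : IsLoc F ϖ) {a : GaussianInt} (h : ¬ ϖ ∣ a) :
    ‖algebraMap GaussianInt F a‖ = 1 := by
  apply le_antisymm (hL.int a)
  by_contra hcon
  exact h ((hL.lt_one a).1 (not_le.1 hcon))

theorem not_dvd_of_sub (hL : IsLoc F ϖ) {a : GaussianInt} (h : ϖ ∣ a - 1) : ¬ ϖ ∣ a := by
  intro h1
  have h2 : ϖ ∣ 1 := by
    have h3 := dvd_sub h1 h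
    rwa [sub_sub_cancel] at h3
  exact hL.prime.not_unit (isUnit_of_dvd_one h2)

end ultra

theorem mei (gdf : GdfStmt) (fra : FraStmt) (inf : InfStmt) (_lvb : LvbStmt) (zlv : ZlvStmt)
    (mzz : MzzStmt) (lin : LinStmt) : MeiStmt := by
  intro F _ _ ϖ hL _ ρ hρ
  have hgood : GoodF F := gdf F (Or.inl ⟨ϖ, hL⟩)
  have h2 : (2 : F) ≠ 0 := by
    have h := hgood.1 2 (by decide)
    rwa [map_ofNat] at h
  have hd : (1 : F) ≠ 0 := one_ne_zero
  obtain ⟨z1, z2, z3, z4, z5, z6, z7, z8⟩ := zlv F ϖ hL (1 : F) hd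
  have hq0 : 0 < qn F ϖ := hL.uni
  have hq1 : qn F ϖ < 1 := (hL.lt_one ϖ).2 dvd_rfl
  -- the point P'
  have hinf := inf F hgood (1 : F) hd (max 1 (1 / ρ))
  obtain ⟨P', hP'B, hP'0⟩ : ∃ p : Pt (1 : F), Big (max 1 (1 / ρ)) p ∧ p ≠ 0 := by
    by_contra hcon
    push Not at hcon
    apply hinf
    refine (Set.finite_singleton (0 : Pt (1 : F))).subset ?_
    intro p hp
    exact hcon p hp
  have hP'M : max 1 (1 / ρ) < ‖cX P' / (1 : F)‖ := by
    rcases hP'B with h | h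
    · exact absurd h hP'0
    · exact h
  have hP'1 : Big 1 P' := Or.inr (lt_of_le_of_lt (le_max_left _ _) hP'M)
  have hzP' : 0 < ‖zc P'‖ := by
    rw [norm_pos_iff]
    intro h
    exact hP'0 ((z3 P' hP'1).1 h)
  -- multiples of P'
  have hpow : ∀ k : ℕ, Big 1 (sm (ϖ ^ k) P') ∧ ‖zc (sm (ϖ ^ k) P')‖ = qn F ϖ ^ k * ‖zc P'‖ := by
    intro k
    induction k with
    | zero =>
      rw [pow_zero, pow_zero, sm_one, one_mul]
      exact ⟨hP'1, rfl⟩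
    | succ k ih =>
      have e1 : sm (ϖ ^ (k + 1)) P' = sm ϖ (sm (ϖ ^ k) P') := by
        rw [pow_succ', sm_mul]
      rw [e1]
      refine ⟨(z2 ‖zc (sm (ϖ ^ k) P')‖ ϖ (sm (ϖ ^ k) P') ⟨ih.1, le_rfl⟩).1, ?_⟩
      rw [z5 _ ih.1, ih.2, pow_succ']
      ring
  obtain ⟨k, hk⟩ := exists_pow_lt_of_lt_one (lt_min hρ one_pos) hq1
  refine ⟨1, ?_⟩
  intro a' b' c' e' hdet ha hb hc he
  rw [pow_one] at ha hb hc he
  have ha' : ¬ ϖ ∣ a' := not_dvd_of_sub hL ha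
  have he' : ¬ ϖ ∣ e' := not_dvd_of_sub hL he
  -- choice of Q'
  obtain ⟨Q', hQ'1, hQ'0, hQ'z, hne⟩ : ∃ Q' : Pt (1 : F), Big 1 Q' ∧ 0 < ‖zc Q'‖ ∧
      ‖zc Q'‖ ≤ qn F ϖ ^ k * ‖zc P'‖ ∧ sm a' Q' ≠ sm c' P' := by
    obtain ⟨b1, n1⟩ := hpow k
    obtain ⟨b2, n2⟩ := hpow (k + 1)
    have hpos1 : 0 < qn F ϖ ^ k * ‖zc P'‖ := mul_pos (pow_pos hq0 k) hzP'
    have hpos2 : 0 < qn F ϖ ^ (k + 1) * ‖zc P'‖ := mul_pos (pow_pos hq0 (k + 1)) hzP'
    have hlt : qn F ϖ ^ (k + 1) * ‖zc P'‖ < qn F ϖ ^ k * ‖zc P'‖ := by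
      rw [pow_succ]
      have h5 : qn F ϖ ^ k * qn F ϖ < qn F ϖ ^ k * 1 :=
        mul_lt_mul_of_pos_left hq1 (pow_pos hq0 k)
      rw [mul_one] at h5
      exact mul_lt_mul_of_pos_right h5 hzP'
    by_cases h1 : sm a' (sm (ϖ ^ k) P') = sm c' P'
    · refine ⟨sm (ϖ ^ (k + 1)) P', b2, by rw [n2]; exact hpos2, by rw [n2]; exact hlt.le, ?_⟩
      intro h3
      have h4 : ‖zc (sm a' (sm (ϖ ^ k) P'))‖ = ‖zc (sm a' (sm (ϖ ^ (k + 1)) P'))‖ := by
        rw [h1, h3]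
      rw [z4 a' _ b1 ha', z4 a' _ b2 ha', n1, n2] at h4
      linarith
    · exact ⟨sm (ϖ ^ k) P', b1, by rw [n1]; exact hpos1, by rw [n1], h1⟩
  have hQ'ne : Q' ≠ 0 := by
    intro h
    rw [h, zc_zero, norm_zero] at hQ'0
    exact lt_irrefl _ hQ'0
  have hk1 : qn F ϖ ^ k < ρ := lt_of_lt_of_le hk (min_le_left _ _)
  have hk2 : qn F ϖ ^ k < 1 := lt_of_lt_of_le hk (min_le_right _ _)
  have hQP : ‖zc Q'‖ ≤ ‖zc P'‖ := by
    refine hQ'z.trans ?_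
    have h5 : qn F ϖ ^ k * ‖zc P'‖ ≤ 1 * ‖zc P'‖ := mul_le_mul_of_nonneg_right hk2.le hzP'.le
    rwa [one_mul] at h5
  -- the image point
  obtain ⟨m1, m2, m3, m4⟩ := mzz F ϖ hL (1 : F) hd P' Q'
  have hU' : OnU (kum 1 P' Q') := m4 hP'0 hP'1 hQ'ne hQ'1
  obtain ⟨m1a, -, -, -, -⟩ := m1 hU'
  have hx1 : (kum 1 P' Q').1 = cX P' / 1 := rfl
  have near : NearE 0 ρ (kum 1 P' Q') := by
    have r1 : 1 / ρ < ‖(kum 1 P' Q').1‖ := by
      rw [hx1]
      exact lt_of_le_of_lt (le_max_right _ _) hP'M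
    refine ⟨hU', r1, ?_, ?_⟩
    · have e1 := m2 hP'0 hP'1
      have e2 := m3 hQ'ne hQ'1
      rw [norm_one, one_mul] at e1 e2
      have e3 : ‖(kum 1 P' Q').1‖ ≤ ‖(kum 1 P' Q').2.1‖ := by
        have e4 : ‖zc Q'‖ ^ 2 ≤ ‖zc P'‖ ^ 2 := pow_le_pow_left₀ hQ'0.le hQP 2
        have e5 : 0 < ‖zc Q'‖ ^ 2 := pow_pos hQ'0 2
        have e6 : 0 ≤ ‖(kum 1 P' Q').1‖ := norm_nonneg _
        by_contra hcon
        have hcon' := not_le.1 hcon
        have e7 : ‖(kum 1 P' Q').2.1‖ * ‖zc Q'‖ ^ 2 < ‖(kum 1 P' Q').1‖ * ‖zc Q'‖ ^ 2 :=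
          mul_lt_mul_of_pos_right hcon' e5
        have e8 : ‖(kum 1 P' Q').1‖ * ‖zc Q'‖ ^ 2 ≤ ‖(kum 1 P' Q').1‖ * ‖zc P'‖ ^ 2 :=
          mul_le_mul_of_nonneg_left e4 e6
        linarith
      exact lt_of_lt_of_le r1 e3
    · rw [m1a, sub_zero, norm_div, div_lt_iff₀ hzP']
      refine lt_of_le_of_lt hQ'z ?_
      exact mul_lt_mul_of_pos_right hk1 hzP'
  -- the source point
  have hsmall : ‖zc P'‖ ^ 5 < ‖zc P'‖ := by
    have h5 := z8 P' hP'0 hP'1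
    rw [norm_one, one_mul] at h5
    have h6 : ‖zc P'‖ ^ 2 < 1 := lt_of_le_of_lt h5 hq1
    have h7 : 0 ≤ ‖zc P'‖ ^ 2 := by positivity
    have h8 : (‖zc P'‖ ^ 2) ^ 2 < 1 := pow_lt_one₀ h7 h6 two_ne_zero
    have h9 : ‖zc P'‖ ^ 5 = ‖zc P'‖ * (‖zc P'‖ ^ 2) ^ 2 := by ring
    rw [h9]
    exact mul_lt_of_lt_one_right hzP' h8
  obtain ⟨lP1, lP2⟩ := lin F ϖ hL (1 : F) hd e' (-b') P' Q' hP'1 hQ'1 hQP
  obtain ⟨lQ1, lQ2⟩ := lin F ϖ hL (1 : F) hd (-c') a' P' Q' hP'1 hQ'1 hQP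
  rw [norm_one, one_pow, one_mul] at lP2 lQ2
  set P : Pt (1 : F) := sm e' P' + sm (-b') Q' with hPdef
  set Q : Pt (1 : F) := sm (-c') P' + sm a' Q' with hQdef
  have hbn : ‖algebraMap GaussianInt F b'‖ < 1 := (hL.lt_one b').2 hb
  have hnP : ‖zc P‖ = ‖zc P'‖ := by
    have t1 : ‖algebraMap GaussianInt F e' * zc P'‖ = ‖zc P'‖ := by
      rw [norm_mul, norm_unit hL he', one_mul]
    have t2 : ‖algebraMap GaussianInt F (-b') * zc Q'‖ < ‖zc P'‖ := by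
      rw [map_neg, norm_mul, norm_neg]
      calc ‖algebraMap GaussianInt F b'‖ * ‖zc Q'‖ < 1 * ‖zc Q'‖ :=
            mul_lt_mul_of_pos_right hbn hQ'0
        _ ≤ ‖zc P'‖ := by rw [one_mul]; exact hQP
    have t3 : zc P = algebraMap GaussianInt F e' * zc P' + (algebraMap GaussianInt F (-b') * zc Q' +
        (zc P - (algebraMap GaussianInt F e' * zc P' + algebraMap GaussianInt F (-b') * zc Q'))) := by
      ring
    have t4 : ‖algebraMap GaussianInt F (-b') * zc Q' +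
        (zc P - (algebraMap GaussianInt F e' * zc P' + algebraMap GaussianInt F (-b') * zc Q'))‖
        < ‖algebraMap GaussianInt F e' * zc P'‖ := by
      rw [t1]
      refine lt_of_le_of_lt (hL.ultra _ _) (max_lt t2 ?_)
      exact lt_of_le_of_lt lP2 hsmall
    rw [t3, ultra_eq hL t4, t1]
  have hnQ : ‖zc Q‖ ≤ ‖zc P'‖ := by
    have t1 : ‖algebraMap GaussianInt F (-c') * zc P'‖ ≤ ‖zc P'‖ := by
      rw [norm_mul]
      have h5 := mul_le_mul_of_nonneg_right (hL.int (-c')) hzP'.le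
      rwa [one_mul] at h5
    have t2 : ‖algebraMap GaussianInt F a' * zc Q'‖ ≤ ‖zc P'‖ := by
      rw [norm_mul, norm_unit hL ha', one_mul]
      exact hQP
    have t3 : zc Q = (algebraMap GaussianInt F (-c') * zc P' + algebraMap GaussianInt F a' * zc Q') +
        (zc Q - (algebraMap GaussianInt F (-c') * zc P' + algebraMap GaussianInt F a' * zc Q')) := by
      ring
    rw [t3]
    refine (hL.ultra _ _).trans (max_le ((hL.ultra _ _).trans (max_le t1 t2)) ?_)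
    exact lQ2.trans hsmall.le
  have hP0 : P ≠ 0 := by
    intro h
    rw [h, zc_zero, norm_zero] at hnP
    linarith
  have hQ0 : Q ≠ 0 := by
    intro h
    apply hne
    have h5 : sm c' P' + Q = sm a' Q' := by
      rw [hQdef, ← add_assoc, ← sm_radd, add_neg_cancel, sm_zero_left, zero_add]
    rw [h, add_zero] at h5
    exact h5.symm
  obtain ⟨w1, -, -, w4⟩ := mzz F ϖ hL (1 : F) hd P Q
  have hU : OnU (kum 1 P Q) := w4 hP0 lP1 hQ0 lQ1
  obtain ⟨w1a, -, -, -, -⟩ := w1 hU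
  have hact : actf a' b' c' e' (kum 1 P Q) = kum 1 P' Q' := by
    rw [fra F h2 1 P Q a' b' c' e' hd hU, hPdef, hQdef, sm_comb, sm_comb]
    have i1 : a' * e' + b' * -c' = 1 := by linear_combination hdet
    have i2 : a' * -b' + b' * a' = 0 := by ring
    have i3 : c' * e' + e' * -c' = 0 := by ring
    have i4 : c' * -b' + e' * a' = 1 := by linear_combination hdet
    rw [i1, i2, i3, i4, sm_one, sm_zero_left, sm_one, sm_zero_left, add_zero, zero_add]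
  refine ⟨kum 1 P Q, kum 1 P' Q', ⟨hU, ?_, ?_, ?_⟩, ⟨hU, hU', hdet, hact.symm⟩, near⟩
  · rcases lP1 with h | h
    · exact absurd h hP0
    · exact h
  · rcases lQ1 with h | h
    · exact absurd h hQ0
    · exact h
  · rw [w1a, norm_div, hnP]
    exact div_le_one_of_le₀ hnQ hzP'.le

end Pool.Agent.WAP.H60
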