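import Pool.Agent.WAP.StmtsT

/-! helper60, squad WAP, row CNS -/

set_option autoImplicit false

namespace Pool.Agent.WAP.H60

open Classical

section field
variable {F : Type} [Field F]

theorem onU_t {z : F × F × F} (h : OnU z) : z.2.1 ≠ 0 ∧ z.2.1 - 1 ≠ 0 ∧ z.2.1 + 1 ≠ 0 := by
  obtain ⟨h1, h2⟩ := h
  have h3 : cub z.2.1 ≠ 0 := by
    intro h4
    rw [h4, mul_zero] at h1
    exact h2 (pow_eq_zero_iff (two_ne_zero)|>.1 h1)
  have h5 : cub z.2.1 = z.2.1 * (z.2.1 - 1) * (z.2.1 + 1) := by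
    unfold cub
    ring
  rw [h5] at h3
  refine ⟨?_, ?_, ?_⟩
  · intro h
    exact h3 (by rw [h]; ring)
  · intro h
    exact h3 (by rw [h]; ring)
  · intro h
    exact h3 (by rw [h]; ring)

theorem onU_sw {z : F × F × F} (h : OnU z) : OnU (swf z) := by
  obtain ⟨h1, h2⟩ := h
  refine ⟨?_, h2⟩
  show z.2.2 ^ 2 = cub z.2.1 * cub z.1
  rw [h1]
  ring

theorem onU_t0 {z : F × F × F} (h : OnU z) : OnU (t0f z) := by
  obtain ⟨t0, -, -⟩ := onU_t h
  obtain ⟨h1, h2⟩ := h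
  refine ⟨?_, ?_⟩
  · show (z.2.2 / z.2.1 ^ 2) ^ 2 = cub z.1 * cub (-1 / z.2.1)
    rw [div_pow, h1]
    unfold cub
    field_simp
    ring
  · show z.2.2 / z.2.1 ^ 2 ≠ 0
    exact div_ne_zero h2 (pow_ne_zero 2 t0)

theorem onU_tp (h2' : (2 : F) ≠ 0) {z : F × F × F} (h : OnU z) : OnU (tpf z) := by
  obtain ⟨-, t1, -⟩ := onU_t h
  obtain ⟨h1, h2⟩ := h
  refine ⟨?_, ?_⟩
  · show (-2 * z.2.2 / (z.2.1 - 1) ^ 2) ^ 2 = cub z.1 * cub ((z.2.1 + 1) / (z.2.1 - 1))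
    rw [div_pow, mul_pow, h1]
    unfold cub
    field_simp
    ring
  · show -2 * z.2.2 / (z.2.1 - 1) ^ 2 ≠ 0
    exact div_ne_zero (mul_ne_zero (neg_ne_zero.2 h2') h2) (pow_ne_zero 2 t1)

theorem onU_tm (h2' : (2 : F) ≠ 0) {z : F × F × F} (h : OnU z) : OnU (tmf z) := by
  obtain ⟨-, -, t1⟩ := onU_t h
  obtain ⟨h1, h2⟩ := h
  have t2 : 1 + z.2.1 ≠ 0 := by
    rw [add_comm]
    exact t1
  refine ⟨?_, ?_⟩
  · show (-2 * z.2.2 / (z.2.1 + 1) ^ 2) ^ 2 = cub z.1 * cub ((1 - z.2.1) / (1 + z.2.1))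
    rw [add_comm z.2.1 1, div_pow, mul_pow, h1]
    unfold cub
    field_simp
    ring
  · show -2 * z.2.2 / (z.2.1 + 1) ^ 2 ≠ 0
    exact div_ne_zero (mul_ne_zero (neg_ne_zero.2 h2') h2) (pow_ne_zero 2 t1)

end field

section cont
variable {F : Type} [NormedField F]

theorem c_x (z : F × F × F) : ContinuousAt (fun z : F × F × F => z.1) z :=
  continuous_fst.continuousAt
theorem c_t (z : F × F × F) : ContinuousAt (fun z : F × F × F => z.2.1) z :=
  (continuous_fst.comp continuous_snd).continuousAt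
theorem c_y (z : F × F × F) : ContinuousAt (fun z : F × F × F => z.2.2) z :=
  (continuous_snd.comp continuous_snd).continuousAt

theorem key (f : F × F × F → F × F × F) (z : F × F × F) (hf : ContinuousAt f z)
    (V : Set (F × F × F)) (hV : IsOpen V) (hz : f z ∈ V) :
    ∃ O : Set (F × F × F), IsOpen O ∧ z ∈ O ∧ ∀ z1 ∈ O, f z1 ∈ V := by
  obtain ⟨O, h1, h2, h3⟩ := mem_nhds_iff.1 (hf (hV.mem_nhds hz))
  exact ⟨O, h2, h3, fun z1 hz1 => h1 hz1⟩

theorem c_sw (z : F × F × F) : ContinuousAt (swf : F × F × F → F × F × F) z :=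
  (c_t z).prodMk ((c_x z).prodMk (c_y z))

theorem c_t0 (z : F × F × F) (h : z.2.1 ≠ 0) : ContinuousAt (t0f : F × F × F → F × F × F) z := by
  refine (c_x z).prodMk (ContinuousAt.prodMk ?_ ?_)
  · exact continuousAt_const.div (c_t z) h
  · exact (c_y z).div ((c_t z).pow 2) (pow_ne_zero 2 h)

theorem c_tp (z : F × F × F) (h : z.2.1 - 1 ≠ 0) :
    ContinuousAt (tpf : F × F × F → F × F × F) z := by
  refine (c_x z).prodMk (ContinuousAt.prodMk ?_ ?_)
  · exact ((c_t z).add continuousAt_const).div ((c_t z).sub continuousAt_const) h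
  · exact (continuousAt_const.mul (c_y z)).div (((c_t z).sub continuousAt_const).pow 2)
      (pow_ne_zero 2 h)

theorem c_tm (z : F × F × F) (h : z.2.1 + 1 ≠ 0) :
    ContinuousAt (tmf : F × F × F → F × F × F) z := by
  have h' : 1 + z.2.1 ≠ 0 := by
    rw [add_comm]
    exact h
  refine (c_x z).prodMk (ContinuousAt.prodMk ?_ ?_)
  · exact (continuousAt_const.sub (c_t z)).div (continuousAt_const.add (c_t z)) h'
  · exact (continuousAt_const.mul (c_y z)).div (((c_t z).add continuousAt_const).pow 2)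
      (pow_ne_zero 2 h)

end cont

theorem cns : CnsStmt := by
  intro F _ _ _ l z z' hl hs V hV hz'
  rcases hl with rfl | rfl | rfl | rfl
  · obtain ⟨h1, h2, h3⟩ := hs
    change z' = swf z at h3
    subst h3
    obtain ⟨O, hO, hzO, hO2⟩ := key swf z (c_sw z) V hV hz'
    exact ⟨O, hO, hzO, fun z1 hz1 hu => ⟨swf z1, hO2 z1 hz1, hu, onU_sw hu, rfl⟩⟩
  · obtain ⟨h1, h2, h3⟩ := hs
    change z' = t0f z at h3
    subst h3
    obtain ⟨O, hO, hzO, hO2⟩ := key t0f z (c_t0 z (onU_t h1).1) V hV hz'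
    exact ⟨O, hO, hzO, fun z1 hz1 hu => ⟨t0f z1, hO2 z1 hz1, hu, onU_t0 hu, rfl⟩⟩
  · obtain ⟨h1, h2, h3⟩ := hs
    change z' = tpf z at h3
    subst h3
    have h4 : (2 : F) ≠ 0 := by
      intro h5
      apply h2.2
      show -2 * z.2.2 / (z.2.1 - 1) ^ 2 = 0
      rw [h5, neg_zero, zero_mul, zero_div]
    obtain ⟨O, hO, hzO, hO2⟩ := key tpf z (c_tp z (onU_t h1).2.1) V hV hz'
    exact ⟨O, hO, hzO, fun z1 hz1 hu => ⟨tpf z1, hO2 z1 hz1, hu, onU_tp h4 hu, rfl⟩⟩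
  · obtain ⟨h1, h2, h3⟩ := hs
    change z' = tmf z at h3
    subst h3
    have h4 : (2 : F) ≠ 0 := by
      intro h5
      apply h2.2
      show -2 * z.2.2 / (z.2.1 + 1) ^ 2 = 0
      rw [h5, neg_zero, zero_mul, zero_div]
    obtain ⟨O, hO, hzO, hO2⟩ := key tmf z (c_tm z (onU_t h1).2.2) V hV hz'
    exact ⟨O, hO, hzO, fun z1 hz1 hu => ⟨tmf z1, hO2 z1 hz1, hu, onU_tm h4 hu, rfl⟩⟩

end Pool.Agent.WAP.H60
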